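import Pool.Agent.Helper70_RES.Stmts

/-!
# Resonance theorem for the Anderson model: module FIX
-/

set_option autoImplicit false

open scoped InnerProductSpace ComplexConjugate Topology ENNReal
open MeasureTheory Filter

noncomputable section

namespace Pool.Agent.RES.H55

open Pool.Agent.Anderson Pool.Agent.Helper54.Bal Pool.Agent.QE Pool.Agent.RES

/-- module FIX: the theorem for almost every energy -/
theorem fix (hNUL : NulStmt) (hFAT : FatStmt) (hDEN : DenStmt) (hDZO : DzoStmt)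
    (hGUD : GudStmt) : FixStmt := by
  intro d μ _ hμ hLow
  have hF : ∀ᵐ p ∂(KK d μ), ∀ a : Site d, NoEig p.1 p.2 → ∀ K : ℕ, Good K p.1 p.2 a →
      ∀ φ : L2 d, Sol p.1 p.2 a φ →
        Summable (Set.indicator {x | Good K p.1 p.2 x} fun x => ‖φ x‖) :=
    ae_all_iff.mpr fun a => hFAT d μ hLow a
  filter_upwards [hNUL d μ hμ, hF, hDEN d μ hμ] with p h1 h2 h3 a φ hS
  obtain ⟨hN, h1⟩ := h1
  obtain ⟨ha, hb⟩ := h1 a φ hS
  obtain ⟨Ka, hKa⟩ := hGUD d p.1 p.2 a φ hN hS ha
  refine hDZO d φ fun j => ?_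
  obtain ⟨K, hK⟩ := h3 j
  refine ⟨{x | Bdd p.1 p.2 x ∧ ¬ Good (max K Ka) p.1 p.2 x},
    hK (max K Ka) (le_max_left _ _), ?_⟩
  have hsum := h2 a hN (max K Ka) (hKa _ (le_max_right _ _)) φ hS
  refine Summable.of_nonneg_of_le (fun x => ?_) (fun x => ?_) hsum
  · exact Set.indicator_nonneg (fun _ _ => norm_nonneg _) x
  · by_cases hx : x ∈ {x | Bdd p.1 p.2 x ∧ ¬ Good (max K Ka) p.1 p.2 x}ᶜ
    · rw [Set.indicator_of_mem hx]
      by_cases hg : Good (max K Ka) p.1 p.2 x
      · rw [Set.indicator_of_mem (show x ∈ {x | Good (max K Ka) p.1 p.2 x} from hg)]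
      · have hnb : ¬ Bdd p.1 p.2 x := fun hbd => hx ⟨hbd, hg⟩
        have h0 : φ x = 0 := by
          by_contra h0
          exact hnb (hb x h0)
        rw [h0, norm_zero]
        exact Set.indicator_nonneg (fun _ _ => norm_nonneg _) x
    · rw [Set.indicator_of_notMem hx]
      exact Set.indicator_nonneg (fun _ _ => norm_nonneg _) x

end Pool.Agent.RES.H55
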