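import Pool.Agent.Helper70_RES.Stmts

/-!
# Resonance theorem for the Anderson model: module FNV
-/

set_option autoImplicit false

open scoped InnerProductSpace ComplexConjugate Topology ENNReal
open MeasureTheory Filter

noncomputable section

namespace Pool.Agent.RES.H55

open Pool.Agent.Anderson Pool.Agent.Helper54.Bal Pool.Agent.QE Pool.Agent.RES

variable {d : ℕ}

theorem lap_smul' (c : ℂ) (ψ : L2 d) (x : Site d) : lap (c • ψ : L2 d) x = c * lap ψ x := by
  simp only [lap, lp.coeFn_smul, Pi.smul_apply, smul_eq_mul, Finset.mul_sum]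
  exact Finset.sum_congr rfl fun i _ => by ring

theorem sumOff_zero : SumOff (0 : L2 d) := by
  refine ⟨∅, ?_, ?_⟩
  · have : (fun R : ℕ => (((∅ : Set (Site d)) ∩ (bx d R : Set (Site d))).ncard : ℝ) /
        ((bx d R).card : ℝ)) = fun _ => 0 := by
      funext R
      simp
    unfold DensityZero
    rw [this]
    exact tendsto_const_nhds
  · have : (fun x : ((∅ : Set (Site d))ᶜ : Set (Site d)) => ‖(0 : L2 d) x‖) = fun _ => 0 := by
      funext x
      simp
    rw [this]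
    exact summable_zero

theorem sumOff_of_smul {c : ℂ} (hc : c ≠ 0) {ψ : L2 d} (h : SumOff (c • ψ)) : SumOff ψ := by
  obtain ⟨B, hB, hs⟩ := h
  refine ⟨B, hB, ?_⟩
  have h1 : (fun x : (Bᶜ : Set (Site d)) => ‖(c • ψ : L2 d) x‖) =
      fun x : (Bᶜ : Set (Site d)) => ‖c‖ * ‖ψ x‖ := by
    funext x
    simp [lp.coeFn_smul]
  rw [h1] at hs
  exact (summable_mul_left_iff (norm_ne_zero_iff.mpr hc)).mp hs

/-- module FNV: the theorem for the potential `V` -/
theorem fnv (hFIX : FixStmt) (hXFR : XfrStmt) : FnvStmt := by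
  intro d μ _ hac hLow
  have hμ : ∀ v : ℝ, μ {v} = 0 := fun v => hac (by simp)
  have hfix := hFIX d μ hμ hLow
  have hN : ∀ a : Site d,
      (KK d μ) {p : Cfg d × ℝ | ∃ φ : L2 d, Sol p.1 p.2 a φ ∧ ¬ SumOff φ} = 0 := by
    intro a
    refine measure_mono_null (fun p hp => ?_) (ae_iff.mp hfix)
    obtain ⟨φ, h1, h2⟩ := hp
    exact fun h => h2 (h a φ h1)
  have hx : ∀ᵐ V ∂(PP d μ), ∀ a : Site d, ∀ (E : ℝ) (ψ : L2 d), Eig V E ψ → ψ a ≠ 0 →
      ∃ v : ℝ, v ≠ V a ∧ (Function.update V a v, E) ∉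
        {p : Cfg d × ℝ | ∃ φ : L2 d, Sol p.1 p.2 a φ ∧ ¬ SumOff φ} :=
    ae_all_iff.mpr fun a => hXFR d μ hac a _ (hN a)
  filter_upwards [hx] with V hV E ψ hE
  by_cases h0 : ψ = 0
  · rw [h0]
    exact sumOff_zero
  · obtain ⟨a, ha⟩ : ∃ a, ψ a ≠ 0 := by
      by_contra hcon
      push Not at hcon
      exact h0 (lp.ext (funext fun a => by rw [hcon a]; rfl))
    obtain ⟨v, hv, hn⟩ := hV a E ψ hE ha
    have hc0 : ((v : ℂ) - V a) * ψ a ≠ 0 := by
      refine mul_ne_zero ?_ ha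
      rw [sub_ne_zero]
      exact_mod_cast hv
    have hc : (((v : ℂ) - V a) * ψ a)⁻¹ ≠ 0 := inv_ne_zero hc0
    refine sumOff_of_smul hc ?_
    by_contra hns
    refine hn ⟨(((v : ℂ) - V a) * ψ a)⁻¹ • ψ, fun y => ?_, hns⟩
    have hy := hE y
    rw [lap_smul']
    simp only [lp.coeFn_smul, Pi.smul_apply, smul_eq_mul]
    by_cases hya : y = a
    · subst hya
      rw [if_pos rfl, Function.update_self]
      have : (((v : ℂ) - V y) * ψ y)⁻¹ * lap ψ y +
          ((v : ℂ) - E) * ((((v : ℂ) - V y) * ψ y)⁻¹ * ψ y) =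
          (((v : ℂ) - V y) * ψ y)⁻¹ * ((lap ψ y + ((V y : ℂ) - E) * ψ y) +
            ((v : ℂ) - V y) * ψ y) := by ring
      rw [this, hy, zero_add, inv_mul_cancel₀ hc0]
    · rw [if_neg hya, Function.update_of_ne hya]
      have : (((v : ℂ) - V a) * ψ a)⁻¹ * lap ψ y +
          ((V y : ℂ) - E) * ((((v : ℂ) - V a) * ψ a)⁻¹ * ψ y) =
          (((v : ℂ) - V a) * ψ a)⁻¹ * (lap ψ y + ((V y : ℂ) - E) * ψ y) := by ring
      rw [this, hy, mul_zero]

end Pool.Agent.RES.H55
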