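import Pool.Agent.Helper70_RES.Stmts

/-!
# Resonance theorem for the Anderson model: module GUD
-/

set_option autoImplicit false

open scoped InnerProductSpace ComplexConjugate Topology ENNReal
open MeasureTheory Filter

noncomputable section

namespace Pool.Agent.RES.H55

open Pool.Agent.Anderson Pool.Agent.Helper54.Bal Pool.Agent.QE Pool.Agent.RES

/-- module GUD: every site with `φ x ≠ 0` is good for large `K` -/
theorem gud (hB : BndStmt) (hL : LimStmt) : GudStmt := by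
  intro d V E x φ hN hS hx
  have hlim : Tendsto (fun n => ‖GG V E n x x‖) atTop (𝓝 ‖φ x‖) :=
    (hL d V E x φ hN hS x).norm
  have hpos : 0 < ‖φ x‖ := norm_pos_iff.mpr hx
  obtain ⟨n₀, hn₀⟩ := eventually_atTop.mp (hlim.eventually (lt_mem_nhds (half_lt_self hpos)))
  obtain ⟨K₁, hK₁⟩ := exists_nat_ge |V x|
  obtain ⟨K₂, hK₂⟩ := exists_nat_ge (2 * ‖φ‖)
  obtain ⟨K₃, hK₃⟩ := exists_nat_ge (2 / ‖φ x‖)
  refine ⟨max (max K₁ K₂) (max K₃ n₀), fun K' hK' => ⟨?_, fun n => ?_, fun n hn => ?_⟩⟩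
  · exact hK₁.trans (by exact_mod_cast le_trans (le_max_left _ _ |>.trans (le_max_left _ _)) hK')
  · exact (hB d V E x φ hS n).trans (hK₂.trans
      (by exact_mod_cast le_trans (le_max_right _ _ |>.trans (le_max_left _ _)) hK'))
  · have h1 : ‖φ x‖ / 2 < ‖GG V E n x x‖ :=
      hn₀ n (le_trans (le_trans (le_max_right _ _ |>.trans (le_max_right _ _)) hK') hn)
    have h2 : 2 / ‖φ x‖ ≤ (K' : ℝ) := hK₃.trans
      (by exact_mod_cast le_trans (le_max_left _ _ |>.trans (le_max_right _ _)) hK')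
    calc (1 : ℝ) = (2 / ‖φ x‖) * (‖φ x‖ / 2) := by field_simp
      _ ≤ (K' : ℝ) * ‖GG V E n x x‖ :=
        mul_le_mul h2 h1.le (by positivity) (by positivity)

end Pool.Agent.RES.H55
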